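import Pool.Agent.Work.MP_588399_co.Small

set_option autoImplicit false

namespace Pool.Agent.Results.MP_588399_co.EvenHalf

open Pool.Agent.Work.MP_588399_co

/-- For even `r ≥ 4`, `f(n,r,r/2-1) = g(n,r,r/2-1)` for all large `n` if and only if `r ≥ 8`. -/
theorem result (r : ℕ) (hr : Even r) (h4 : 4 ≤ r) :
    (∃ N : ℕ, ∀ n : ℕ, N ≤ n → f n r (r / 2 - 1) = g n r (r / 2 - 1)) ↔ 8 ≤ r :=
  even_case r hr h4

end Pool.Agent.Results.MP_588399_co.EvenHalf
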