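import Pool.Agent.Work.MP_588399_co.Main

set_option autoImplicit false

namespace Pool.Agent.Results.MP_588399_co.FourElevenths

open Pool.Agent.Work.MP_588399_co

/-- Connecting equals touching as soon as `s > 4r/11`, for every `n ≥ 2`. -/
theorem result (n r s : ℕ) (hn : 2 ≤ n) (hsr : s ≤ r) (h : 4 * r < 11 * s) :
    f n r s = g n r s :=
  f_eq_g hn hsr h

end Pool.Agent.Results.MP_588399_co.FourElevenths
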